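import Pool.Agent.H30.MV.GrayTakagi

/-!
# Almost every level set of the Gray Takagi function is finite
-/

namespace Pool.Agent.Results.MP_cc494f_an.GrayTakagi

open Pool.H30.MV.GrayTakagi

open MeasureTheory Set

/-- **Almost every level set of the Gray Takagi function is finite.** -/
theorem result : ∀ᵐ y : ℝ, {x : ℝ | x ∈ Set.Icc (0 : ℝ) 1 ∧ grayTakagi x = y}.Finite :=
  Pool.H30.MV.GrayTakagi.result

end Pool.Agent.Results.MP_cc494f_an.GrayTakagi
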